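import Mathlib
import Pool.Agent.R230.CK.Limit

/-!
There is a set `S` of slopes in the middle-thirds Cantor set and, for every slope `s` in `S`, a unit
segment of slope `s` in the plane, such that the union of the segments has Lebesgue measure zero and
the union of the concentric segments of twice the length has positive Lebesgue measure.
-/

set_option autoImplicit false

open MeasureTheory Set

namespace Pool.Agent.Results.MP_60620c_an.NullUnion

open Pool.Agent.R230.CK

/-- the closed segment in the plane with midpoint `m`, slope `s` and length `r` -/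
def seg (s : ℝ) (m : ℝ × ℝ) (r : ℝ) : Set (ℝ × ℝ) :=
  {p | ∃ t ∈ Icc (-(r / 2)) (r / 2),
    p = (m.1 + t * (1 / √(1 + s ^ 2)), m.2 + t * (s / √(1 + s ^ 2)))}

theorem result : ∃ (S : Set ℝ) (m : ℝ → ℝ × ℝ), S ⊆ cantorSet ∧
    volume (⋃ s ∈ S, seg s (m s) 1) = 0 ∧ 0 < volume (⋃ s ∈ S, seg s (m s) 2) := by
  classical
  set S : Set ℝ := {s | ∃ c, LL s c} with hS
  set c : ℝ → ℝ := fun s => if h : ∃ c, LL s c then h.choose else 0 with hc
  have hcs : ∀ s ∈ S, LL s (c s) := by
    intro s hs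
    have hs' : ∃ c, LL s c := hs
    simp only [hc, hs', dif_pos]
    exact hs'.choose_spec
  have hR1 : ∀ s : ℝ, 1 ≤ √(1 + s ^ 2) := fun s => by
    rw [Real.one_le_sqrt]
    nlinarith [sq_nonneg s]
  refine ⟨S, fun s => (1 / 4 + 1 / 2 * (1 / √(1 + s ^ 2)),
    c s + s * (1 / 4 + 1 / 2 * (1 / √(1 + s ^ 2)))), ?_, ?_, ?_⟩
  · rintro s ⟨c, h⟩
    exact h.1
  · refine measure_mono_null ?_ null_part
    intro p hp
    simp only [mem_iUnion, exists_prop] at hp
    obtain ⟨s, hs, t, ht, rfl⟩ := hp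
    have hR0 : 0 < √(1 + s ^ 2) := lt_of_lt_of_le one_pos (hR1 s)
    set k := 1 / √(1 + s ^ 2) with hk
    have hk0 : 0 < k := by positivity
    have hk1 : k ≤ 1 := by
      rw [hk, div_le_one hR0]
      exact hR1 s
    have hsk : s / √(1 + s ^ 2) = s * k := by
      rw [hk]
      ring
    have hx : 1 / 4 + 1 / 2 * k + t * k ∈ Icc (1 / 4 : ℝ) 2 := by
      constructor
      · nlinarith [ht.1]
      · nlinarith [ht.2]
    have h1 := LL_mem (hcs s hs) (z := 1 / 4 + 1 / 2 * k + t * k)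
      ⟨by linarith [hx.1], hx.2⟩
    refine ⟨?_, hx⟩
    convert h1 using 2
    change c s + s * (1 / 4 + 1 / 2 * k) + t * (s / √(1 + s ^ 2)) = _
    rw [hsk]
    ring
  · refine lt_of_lt_of_le pos_part (measure_mono ?_)
    rintro ⟨x, y⟩ ⟨hp, hx⟩
    have hx : x ∈ Icc (1 / 16 : ℝ) (1 / 8) := hx
    obtain ⟨s, hs⟩ := exists_LL hp
    have hsS : s ∈ S := ⟨_, hs⟩
    have hcy : c s = y - s * x := LL_unique (hcs s hsS) hs
    have hs01 := cantorSet_subset_unitInterval hs.1
    have hR0 : 0 < √(1 + s ^ 2) := lt_of_lt_of_le one_pos (hR1 s)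
    have hR2 : √(1 + s ^ 2) ≤ 3 / 2 := by
      rw [Real.sqrt_le_left (by norm_num)]
      nlinarith [hs01.1, hs01.2]
    simp only [mem_iUnion, exists_prop]
    refine ⟨s, hsS, √(1 + s ^ 2) * (x - 1 / 4) - 1 / 2, ?_, ?_⟩
    · constructor
      · nlinarith [hx.1, hR1 s]
      · nlinarith [hx.2, hR1 s]
    · rw [hcy]
      have e1 : (√(1 + s ^ 2) * (x - 1 / 4) - 1 / 2) * (1 / √(1 + s ^ 2)) =
          (x - 1 / 4) - 1 / 2 * (1 / √(1 + s ^ 2)) := by
        field_simp
      have e2 : (√(1 + s ^ 2) * (x - 1 / 4) - 1 / 2) * (s / √(1 + s ^ 2)) =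
          s * ((√(1 + s ^ 2) * (x - 1 / 4) - 1 / 2) * (1 / √(1 + s ^ 2))) := by
        ring
      rw [e2, e1]
      ext
      · simp only
        ring
      · simp only
        ring

end Pool.Agent.Results.MP_60620c_an.NullUnion
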